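import Pool.Agent.Helper680.SLConv

/-!
# Linking one source vertex while keeping a web unhindered (MP_f2e29e_co, Q1)

Every unhindered web `Γ = (G, A, B)`, of any cardinality, and every `a ∈ A` admit an `a`–`B` path `P`
such that `Γ - P` is unhindered.
-/

namespace Pool.Agent.Results.MP_f2e29e_co.SafeLink

universe u

/-- A web `Γ = (G, A, B)`: a directed graph `G` with vertex set the type `V` (of any cardinality)
and two arbitrary sets `A`, `B` of vertices. -/
structure Web (V : Type u) where
  /-- the directed graph -/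
  G : Digraph V
  /-- the source side -/
  A : Set V
  /-- the target side -/
  B : Set V

/-- A directed simple path in `G`. It is either finite, given by the nonempty list of its distinct
vertices with consecutive vertices joined by an edge of `G` (one vertex is allowed), or infinite, given
by an injective sequence `f 0, f 1, …` of vertices with an edge from each `f n` to `f (n+1)`. -/
inductive DPath {V : Type u} (G : Digraph V) where
  | finite (l : List V) (ne : l ≠ []) (nodup : l.Nodup) (chain : l.IsChain G.Adj) : DPath G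
  | infinite (f : ℕ → V) (inj : Function.Injective f) (adj : ∀ n, G.Adj (f n) (f (n + 1))) : DPath G

namespace DPath

variable {V : Type u} {G : Digraph V}

/-- the vertex set of a path -/
def verts : DPath G → Set V
  | finite l _ _ _ => {x | x ∈ l}
  | infinite f _ _ => Set.range f

/-- the initial vertex `in(P)` -/
def init : DPath G → V
  | finite l ne _ _ => l.head ne
  | infinite f _ _ => f 0

/-- `P.IsTer x`: the path `P` is finite and its terminal vertex `ter(P)` is `x`. -/
def IsTer : DPath G → V → Prop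
  | finite l ne _ _, x => l.getLast ne = x
  | infinite _ _ _, _ => False

end DPath

namespace Web

variable {V : Type u}

/-- `A`–`B` path: a finite path with first vertex in `A` and last vertex in `B`. -/
def IsABPath (Γ : Web V) (P : DPath Γ.G) : Prop :=
  P.init ∈ Γ.A ∧ ∃ b ∈ Γ.B, P.IsTer b

/-- `S` is `A`–`B` separating: every `A`–`B` path contains a vertex of `S`. -/
def Separating (Γ : Web V) (S : Set V) : Prop :=
  ∀ P : DPath Γ.G, Γ.IsABPath P → ∃ x ∈ P.verts, x ∈ S

/-- warp: a set of pairwise vertex-disjoint paths -/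
def IsWarp (Γ : Web V) (W : Set (DPath Γ.G)) : Prop :=
  ∀ P ∈ W, ∀ Q ∈ W, P ≠ Q → Disjoint P.verts Q.verts

/-- `in[W]`: the set of initial vertices of the paths of `W` -/
def inSet (Γ : Web V) (W : Set (DPath Γ.G)) : Set V := {x | ∃ P ∈ W, P.init = x}

/-- `ter[W]`: the set of terminal vertices of the (finite) paths of `W` -/
def terSet (Γ : Web V) (W : Set (DPath Γ.G)) : Set V := {x | ∃ P ∈ W, P.IsTer x}

/-- wave: a warp all of whose paths start in `A` and whose set of terminal vertices is separating -/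
def IsWave (Γ : Web V) (W : Set (DPath Γ.G)) : Prop :=
  Γ.IsWarp W ∧ (∀ P ∈ W, P.init ∈ Γ.A) ∧ Γ.Separating (Γ.terSet W)

/-- A web is hindered if it contains a hindrance: a wave `W` with `in[W] ≠ A`. -/
def Hindered (Γ : Web V) : Prop :=
  ∃ W : Set (DPath Γ.G), Γ.IsWave W ∧ Γ.inSet W ≠ Γ.A

/-- The web `Γ - S = (G - S, A \ S, B \ S)` with vertex set `V \ S`; here `G - S` is the subgraph of `G`
induced on `V \ S`. -/
def delete (Γ : Web V) (S : Set V) : Web {v : V // v ∉ S} where
  G := ⟨fun x y => Γ.G.Adj x.1 y.1⟩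
  A := {x | x.1 ∈ Γ.A}
  B := {x | x.1 ∈ Γ.B}

end Web

open Pool.Agent.Helper680.SafeLink

variable {V : Type u}

/-- an internal hindrance gives a hindrance -/
theorem hindered_of_hind (Γ : Web V) (h : Hind Γ.G.Adj Γ.A Γ.B ∅) : Γ.Hindered := by
  obtain ⟨w, hw, c, hcA, _, hcX⟩ := h
  let W : Set (DPath Γ.G) := {P | ∃ l ne nodup chain, P = DPath.finite l ne nodup chain ∧
    l.IsChain w.M ∧ l.head ne ∈ Γ.A ∧ l.head ne ∈ w.X ∧ l.getLast ne ∈ w.ter}
  refine ⟨W, ⟨?_, ?_, ?_⟩, ?_⟩
  · rintro P ⟨l, ne, nd, ch, rfl, h1, h2, h3, h4⟩ Q ⟨l', ne', nd', ch', rfl, h1', h2', h3', h4'⟩ hPQ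
    rw [Set.disjoint_left]
    intro x hx hx'
    apply hPQ
    have : l = l' := chain_eq hw.func hw.inj ne ne' h1 h1' (fun y hy => hw.notA _ _ hy h2)
      (fun y hy => hw.notA _ _ hy h2') h4.2 h4'.2 hx hx'
    subst this
    rfl
  · rintro P ⟨l, ne, nd, ch, rfl, h1, h2, h3, h4⟩
    exact h2
  · intro Q hQ
    cases Q with
    | infinite f inj adj => exact (hQ.2.choose_spec.2).elim
    | finite l ne nd ch =>
      obtain ⟨hQA, b, hb, hlb⟩ := hQ
      by_contra hcon
      refine hw.sep _ hQA (fr_of_list l ne ch (by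
        have : l.getLast ne = b := hlb
        rw [this]; exact hb) ?_)
      rintro x hx (hx' | hx')
      · exact hx'
      · apply hcon
        refine ⟨x, hx, ?_⟩
        obtain ⟨i, hiA, hiX, hix⟩ := hw.orig x hx'.1
        obtain ⟨m, mne, m1, m2, m3, m4, _⟩ := exists_nodup_chain (R := w.M) (p := fun _ => True)
          (rtg_mono (fun _ _ h => ⟨h, trivial⟩) hix) trivial
        refine ⟨DPath.finite m mne m1 (m2.imp (fun a b h => hw.edge _ _ h)), ?_, m4⟩
        exact ⟨m, mne, m1, _, rfl, m2, by rw [m3]; exact hiA, by rw [m3]; exact hiX,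
          by rw [m4]; exact hx'⟩
  · intro heq
    have hc : c ∈ Γ.inSet W := by rw [heq]; exact hcA
    obtain ⟨P, ⟨l, ne, nd, ch, rfl, h1, h2, h3, h4⟩, hPc⟩ := hc
    have : l.head ne = c := hPc
    rw [this] at h3
    exact hcX h3

/-- a hindrance after deleting `S` gives an internal hindrance -/
theorem hind_of_hindered (Γ : Web V) (S : Set V) (h : (Γ.delete S).Hindered) :
    Hind Γ.G.Adj Γ.A Γ.B S := by
  obtain ⟨W, ⟨hW1, hW2, hW3⟩, hW4⟩ := h
  let L : Set (List V) := {l | ∃ l' ne nodup chain, DPath.finite l' ne nodup chain ∈ W ∧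
    l = l'.map Subtype.val}
  have hnd : ∀ l ∈ L, l.Nodup := by
    rintro l ⟨l', ne, nd, ch, hl, rfl⟩
    exact nd.map Subtype.val_injective
  have hch : ∀ l ∈ L, l.IsChain Γ.G.Adj := by
    rintro l ⟨l', ne, nd, ch, hl, rfl⟩
    rw [List.isChain_map]
    exact ch
  have hhead : ∀ l ∈ L, ∀ x t, l = x :: t → x ∈ Γ.A := by
    rintro l ⟨l', ne, nd, ch, hl, rfl⟩ x t hxt
    have h1 := hW2 _ hl
    cases l' with
    | nil => exact (ne rfl).elim
    | cons y l'' =>
      simp only [List.map_cons, List.cons.injEq] at hxt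
      rw [← hxt.1]
      exact h1
  have hDL : ∀ l ∈ L, ∀ x ∈ l, x ∉ S := by
    rintro l ⟨l', ne, nd, ch, hl, rfl⟩ x hx
    obtain ⟨y, _, rfl⟩ := List.mem_map.1 hx
    exact y.2
  have hdisj : ∀ l ∈ L, ∀ l' ∈ L, ∀ x, x ∈ l → x ∈ l' → l = l' := by
    rintro l ⟨m, ne, nd, ch, hl, rfl⟩ l' ⟨m', ne', nd', ch', hl', rfl⟩ x hx hx'
    obtain ⟨y, hy, rfl⟩ := List.mem_map.1 hx
    obtain ⟨y', hy', hyy⟩ := List.mem_map.1 hx'
    have : y' = y := Subtype.ext hyy
    subst this
    by_contra hne
    have h1 := hW1 _ hl _ hl' (by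
      intro heq
      injection heq with heq
      exact hne (by rw [heq]))
    exact (Set.disjoint_left.1 h1 hy hy').elim
  have hw := ofLists_isWarp hnd hch hhead hDL hdisj
  refine ⟨ofLists Γ.A L, { hw with sep := ?_ }, ?_⟩
  · intro a ha hf
    obtain ⟨l, ne, h1, h2, h3, h4, h5⟩ := hf.exists_path
    have hS : ∀ x ∈ l, x ∉ S := fun x hx h => h5 x hx (Or.inl h)
    let l' : List {v : V // v ∉ S} := l.attachWith (fun v => v ∉ S) hS
    have hl' : l'.map Subtype.val = l := by simp [l']
    have ne' : l' ≠ [] := by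
      intro h
      apply ne
      rw [← hl', h]; rfl
    have nd' : l'.Nodup := by
      apply List.Nodup.of_map Subtype.val
      rw [hl']; exact h1
    have ch' : l'.IsChain (Γ.delete S).G.Adj := by
      have : (l'.map Subtype.val).IsChain Γ.G.Adj := by rw [hl']; exact h2
      rwa [List.isChain_map] at this
    have hhd : (l'.head ne').1 = l.head ne := by
      have : (l'.map Subtype.val).head (fun h => ne' (List.map_eq_nil_iff.1 h)) = l.head ne := by
        simp only [hl']
      rw [← this, List.head_map]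
    have hlast : (l'.getLast ne').1 = l.getLast ne := by
      have : (l'.map Subtype.val).getLast (fun h => ne' (List.map_eq_nil_iff.1 h)) = l.getLast ne := by
        simp only [hl']
      rw [← this, List.getLast_map]
    obtain ⟨x, hx, P, hP, hPx⟩ := hW3 (DPath.finite l' ne' nd' ch') ⟨by
      change (l'.head ne').1 ∈ Γ.A
      rw [hhd, h3]; exact ha, l'.getLast ne', by
      change (l'.getLast ne').1 ∈ Γ.B
      rw [hlast]; exact h4, rfl⟩
    cases P with
    | infinite f inj adj => exact hPx
    | finite m mne mnd mch =>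
      have hmx : m.getLast mne = x := hPx
      have hxl : x.1 ∈ l := by
        rw [← hl']; exact List.mem_map.2 ⟨x, hx, rfl⟩
      have hmL : m.map Subtype.val ∈ L := ⟨m, mne, mnd, mch, hP, rfl⟩
      have := ofLists_ter (A := Γ.A) hnd hdisj hmL (fun h => mne (List.map_eq_nil_iff.1 h))
      rw [List.getLast_map, hmx] at this
      exact h5 _ hxl (Or.inr this)
  · have : ∃ c, c ∈ (Γ.delete S).A ∧ c ∉ (Γ.delete S).inSet W := by
      by_contra hcon
      apply hW4
      apply Set.Subset.antisymm
      · rintro x ⟨P, hP, rfl⟩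
        exact hW2 P hP
      · intro x hx
        by_contra hx'
        exact hcon ⟨x, hx, hx'⟩
    obtain ⟨c, hcA, hcW⟩ := this
    by_cases hcX : c.1 ∈ (ofLists Γ.A L).X
    swap
    · exact ⟨c.1, hcA, c.2, hcX⟩
    obtain ⟨l, hl, l1, l2, hll, h2⟩ := hcX
    obtain ⟨m, mne, mnd, mch, hm, hlm⟩ := id hl
    cases l1 with
    | nil =>
      exfalso
      apply hcW
      refine ⟨_, hm, ?_⟩
      change m.head mne = c
      cases m with
      | nil => exact (mne rfl).elim
      | cons y m' =>
        simp only [List.map_cons, List.nil_append] at hlm hll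
        rw [hlm] at hll
        simp only [List.cons.injEq] at hll
        exact Subtype.ext hll.1
    | cons y l1' =>
      refine ⟨y, hhead l hl y _ (by rw [hll]; rfl), hDL l hl y (by rw [hll]; simp), ?_⟩
      rintro ⟨l', hl', n1, n2, h3, h4⟩
      have : l = l' := hdisj l hl l' hl' y (by rw [hll]; simp) (by rw [h3]; simp)
      subst this
      have hn := hnd l hl
      have e1 : l = [] ++ y :: (l1' ++ c.1 :: l2) := by rw [hll]; rfl
      rw [e1] at hn h3
      have := (nodup_split hn h3).2
      exact h4 c.1 (by rw [← this]; simp) hcA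

/-- **The Aharoni–Berger safe linking question, affirmative answer.** For every unhindered web
`Γ = (G, A, B)`, of any cardinality, and every `a ∈ A`, there is an `a`–`B` path `P` such that
`Γ - P` is unhindered. -/
theorem result {V : Type u} (Γ : Web V) (hΓ : ¬ Γ.Hindered) (a : V) (ha : a ∈ Γ.A) :
    ∃ P : DPath Γ.G, Γ.IsABPath P ∧ P.init = a ∧ ¬ (Γ.delete P.verts).Hindered := by
  obtain ⟨T, b, hbB, hT, hbT⟩ := main ha (fun h => hΓ (hindered_of_hind Γ h))
  obtain ⟨l, ne, h1, h2, h3, h4, h5⟩ := exists_nodup_chain (p := fun v => v ∈ T)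
    (hT.reach b hbT) hT.mem
  refine ⟨DPath.finite l ne h1 h2, ⟨?_, b, hbB, h4⟩, h3, ?_⟩
  · change l.head ne ∈ Γ.A
    rw [h3]; exact ha
  · intro hh
    have hfin : {x | x ∈ l}.Finite := List.finite_toSet l
    refine hT.fin {x | x ∈ l} h5 hfin ?_ (hind_of_hindered Γ _ hh)
    have := List.head_mem ne
    rw [h3] at this
    exact this

end Pool.Agent.Results.MP_f2e29e_co.SafeLink
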